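import Pool.Agent.Lib.MP_c8ddae_co.H8Num

set_option autoImplicit false

namespace Pool.Agent.Results.MP_c8ddae_co.ApproxPosa

open Pool.Agent.Lib.MP_c8ddae_co

/-- Posa-type condition with error `4√k + 4` at low degrees, error `s` at degrees `≥ σ/4`,
required for all `k < n/2 + σ`, where `s² σ² ≥ C n³ log n`. -/
theorem result :
    ∃ C : ℝ, ∀ (V : Type) [Fintype V] (G : Digraph V), (∀ v : V, ¬ G.Adj v v) →
      ∀ s σ : ℝ, 0 < s → s ≤ σ →
      C * (Fintype.card V : ℝ) ^ 3 * Real.log (Fintype.card V) ≤ s ^ 2 * σ ^ 2 →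
      (∀ k : ℕ, (k : ℝ) < (Fintype.card V : ℝ) / 2 + σ →
        (({v : V | {u : V | G.Adj u v}.ncard ≤ k}.ncard : ℝ) ≤ max 0 (k - 4 * √k - 4)) ∧
        (σ / 4 ≤ k → ({v : V | {u : V | G.Adj u v}.ncard ≤ k}.ncard : ℝ) ≤ max 0 (k - s))) →
      (∀ k : ℕ, (k : ℝ) < (Fintype.card V : ℝ) / 2 + σ →
        (({v : V | {u : V | G.Adj v u}.ncard ≤ k}.ncard : ℝ) ≤ max 0 (k - 4 * √k - 4)) ∧
        (σ / 4 ≤ k → ({v : V | {u : V | G.Adj v u}.ncard ≤ k}.ncard : ℝ) ≤ max 0 (k - s))) →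
      ∃ f : Fin (Fintype.card V) ≃ V,
        ∀ i j : Fin (Fintype.card V),
          j.val = (i.val + 1) % Fintype.card V → G.Adj (f i) (f j) := by
  refine ⟨10 ^ 6, fun V _ G hirr s σ hs hsσ hC hin hout => ?_⟩
  classical
  rcases isEmpty_or_nonempty V with hV | hV
  · exact ⟨(Fintype.equivFin V).symm, fun i _ _ => hV.elim ((Fintype.equivFin V).symm i)⟩
  · refine Ham.enum (ham_real hirr s σ hs hsσ hC (fun k hk => ?_) (fun k hk => ?_))
    · rw [← cnt_ncard]; exact hout k hk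
    · rw [← cnt_ncard]; exact hin k hk

end Pool.Agent.Results.MP_c8ddae_co.ApproxPosa
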