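import Pool.Agent.Lib.MP_c8ddae_co.H8NW

set_option autoImplicit false

namespace Pool.Agent.Results.MP_c8ddae_co.ChvatalFalse

open Pool.Agent.Lib.MP_c8ddae_co.NW

/-- The Chvatal-type strengthening of Q1 (Nash-Williams 1975) fails for every `n ≥ 6`: a strongly
connected digraph with `d⁺ᵢ ≥ i + 1` or `d⁻_{n-i} ≥ n - i`, and `d⁻ᵢ ≥ i + 1` or
`d⁺_{n-i} ≥ n - i`, for all `1 ≤ i < n / 2`, and no Hamiltonian dicircuit. For
`n ≥ 9` it satisfies (i), (ii), (iv) of Q1, and (iii) for every `k` other than `2, 3, 4`. -/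
theorem result :
    ∀ n : ℕ, 6 ≤ n → ∃ G : Digraph (Fin n),
      (∀ v : Fin n, ¬ G.Adj v v) ∧
      (∀ u v : Fin n, Relation.ReflTransGen G.Adj u v) ∧
      (∀ i : ℕ, 1 ≤ i → 2 * i < n →
        {v : Fin n | {u : Fin n | G.Adj v u}.ncard ≤ i}.ncard < i ∨
        {v : Fin n | {u : Fin n | G.Adj u v}.ncard < n - i}.ncard < n - i) ∧
      (∀ i : ℕ, 1 ≤ i → 2 * i < n →
        {v : Fin n | {u : Fin n | G.Adj u v}.ncard ≤ i}.ncard < i ∨
        {v : Fin n | {u : Fin n | G.Adj v u}.ncard < n - i}.ncard < n - i) ∧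
      (9 ≤ n →
        (∀ k : ℕ, 0 < k → (k : ℝ) < ((n : ℝ) - 1) / 2 →
          {v : Fin n | {u : Fin n | G.Adj u v}.ncard ≤ k}.ncard < k) ∧
        (({v : Fin n | (({u : Fin n | G.Adj u v}.ncard : ℕ) : ℝ) ≤ ((n : ℝ) - 1) / 2}.ncard : ℝ)
          ≤ ((n : ℝ) - 1) / 2) ∧
        (∀ k : ℕ, 0 < k → (k : ℝ) < ((n : ℝ) - 1) / 2 → k ≠ 2 → k ≠ 3 → k ≠ 4 →
          {v : Fin n | {u : Fin n | G.Adj v u}.ncard ≤ k}.ncard < k) ∧
        (({v : Fin n | (({u : Fin n | G.Adj v u}.ncard : ℕ) : ℝ) ≤ ((n : ℝ) - 1) / 2}.ncard : ℝ)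
          ≤ ((n : ℝ) - 1) / 2)) ∧
      ¬ ∃ f : Fin n ≃ Fin n,
        ∀ i j : Fin n, j.val = (i.val + 1) % n → G.Adj (f i) (f j) := by
  intro n hn6
  by_cases hn : ¬ 8 ≤ n
  · obtain ⟨t, ht⟩ : ∃ t : ℕ, (t = 1 ∧ n = 6) ∨ (t = 6 ∧ n = 7) := by
      rcases (by omega : n = 6 ∨ n = 7) with h | h
      · exact ⟨1, Or.inl ⟨rfl, h⟩⟩
      · exact ⟨6, Or.inr ⟨rfl, h⟩⟩
    exact ⟨ex2 t n, fun v h => h.1 rfl, strong2 hn6 (by omega),
      fun i h1 h2 => (nw_small ht i h1 h2).1, fun i h1 h2 => (nw_small ht i h1 h2).2,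
      fun h9 => absurd h9 (by omega),
      fun ⟨f, hf⟩ => no_ham2 hn6 (by omega) (by omega) f hf⟩
  rw [not_not] at hn
  have hr : ∀ k : ℕ, (k : ℝ) ≤ ((n : ℝ) - 1) / 2 ↔ 2 * k + 1 ≤ n := by
    intro k
    rw [le_div_iff₀ (by norm_num : (0 : ℝ) < 2), ← @Nat.cast_le ℝ]
    push_cast
    constructor <;> intro h <;> linarith
  have hs : ∀ k : ℕ, (k : ℝ) < ((n : ℝ) - 1) / 2 → 2 * k + 1 < n := by
    intro k h
    rw [lt_div_iff₀ (by norm_num : (0 : ℝ) < 2)] at h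
    rw [← @Nat.cast_lt ℝ]
    push_cast
    linarith
  refine ⟨ex n, fun v h => h.1 rfl, strong hn, nw_one hn,
    fun i h1 h2 => Or.inr (nw_two hn i h1 h2), fun h9 => ⟨?_, ?_, ?_, ?_⟩,
    fun ⟨f, hf⟩ => no_ham hn f hf⟩
  · intro k hk hk2
    have h3 := hs k hk2
    rw [none_card _ (fun v hv => by
      have h4 := ind_all v
      have h5 : ind v ≤ k := hv
      omega)]
    exact hk
  · rw [hr]
    rcases (by omega : n = 9 ∨ 10 ≤ n) with h | h
    · have := avoid_card {v : Fin n | ((ind v : ℕ) : ℝ) ≤ ((n : ℝ) - 1) / 2} {0, 1, 2, 3, 4}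
        (fun t ht => by simp only [Finset.mem_insert, Finset.mem_singleton] at ht; omega)
        (fun v hv ht => by
          have h4 := ind_four v
          have h5 := (hr _).1 hv
          simp only [Finset.mem_insert, Finset.mem_singleton] at ht
          omega)
      have h3 : ({0, 1, 2, 3, 4} : Finset ℕ).card = 5 := rfl
      have h6 : {v : Fin n | ((ind v : ℕ) : ℝ) ≤ ((n : ℝ) - 1) / 2}.ncard ≤ 4 := by omega
      exact le_trans (Nat.add_le_add_right (Nat.mul_le_mul_left 2 h6) 1) (by omega)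
    · rw [none_card _ (fun v hv => by
        have h4 := ind_all v
        have h5 : 2 * ind v + 1 ≤ n := (hr _).1 hv
        omega)]
      omega
  · intro k hk hk2 _ _ _
    have h3 := hs k hk2
    rcases (by omega : k = 1 ∨ 5 ≤ k) with h | h
    · rw [none_card _ (fun v hv => by
        have h4 := od_two hn v
        have h5 : od v ≤ k := hv
        omega)]
      exact hk
    · have h6 := low_out {v : Fin n | od v ≤ k} (fun v hv => by
        have h5 : od v ≤ k := hv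
        omega)
      exact lt_of_le_of_lt h6 (by omega)
  · rw [hr]
    have h6 := low_out {v : Fin n | ((od v : ℕ) : ℝ) ≤ ((n : ℝ) - 1) / 2} (fun v hv => by
      have h5 : 2 * od v + 1 ≤ n := (hr _).1 hv
      omega)
    exact le_trans (Nat.add_le_add_right (Nat.mul_le_mul_left 2 h6) 1) (by omega)

end Pool.Agent.Results.MP_c8ddae_co.ChvatalFalse
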