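import Pool.Agent.Lib.MP_c8ddae_co.H19Main

set_option autoImplicit false

namespace Pool.Agent.Results.MP_c8ddae_co.OneSidedExact

open Pool.Agent.Lib.MP_c8ddae_co.H19

/-- Exact Posa-type theorem, for every `n`, when the outdegrees are large. All but `p` vertices
have outdegree at least `b`, where `n + p ≤ 2 b`. For `p = 0` and `b = ⌈n/2⌉` it says: minimum
outdegree at least `n/2`, and at most `k` vertices of indegree `≤ k` for each `k ≤ n/2 - 2`,
give a Hamiltonian dicircuit. -/
theorem result :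
    ∀ (V : Type) [Fintype V] (G : Digraph V), (∀ v : V, ¬ G.Adj v v) →
      ∀ p b : ℕ, Fintype.card V + p ≤ 2 * b →
      {v : V | {u : V | G.Adj v u}.ncard < b}.ncard ≤ p →
      (∀ k : ℕ, k < b → {v : V | {u : V | G.Adj v u}.ncard ≤ k}.ncard ≤ k) →
      (∀ k : ℕ, k + b + 2 ≤ Fintype.card V + p →
        ({v : V | {u : V | G.Adj u v}.ncard ≤ k}.ncard : ℤ) ≤ max 0 ((k : ℤ) - p)) →
      ∃ f : Fin (Fintype.card V) ≃ V,
        ∀ i j : Fin (Fintype.card V),
          j.val = (i.val + 1) % Fintype.card V → G.Adj (f i) (f j) := by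
  intro V _ G hirr p b h1 h2 h3 h4
  rcases isEmpty_or_nonempty V with hV | hV
  · exact ⟨(Fintype.equivFin V).symm, fun i _ _ => hV.elim ((Fintype.equivFin V).symm i)⟩
  simp only [cnt_ncard] at h2 h3 h4
  obtain ⟨r, -, hr⟩ := ham_gen p Finset.univ (fun a c => G.Adj c a) b Finset.univ_nonempty
    h1 hirr h2 h3 (fun k hk => by
      have h5 := h4 k hk
      have h6 : cnt Finset.univ (fun a => cnt Finset.univ (fun c => G.Adj c a) ≤ k) ≤ k - p := by
        omega
      exact h6)
  exact (HamAt.rev (A := G.Adj) hr).enum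

end Pool.Agent.Results.MP_c8ddae_co.OneSidedExact
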